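import Pool.Agent.H95.SmallTri

set_option autoImplicit false

open Pool.Agent.H95.SmallTri

theorem Pool.Agent.Results.MP_623bad_gt.NoRight.result :
    ∃ (T : Disk ≃ₜ Disk) (ε : ℝ), 0 < ε ∧ ∀ p₁ p₂ p₃ : Disk, p₁ ≠ p₂ → p₁ ≠ p₃ →
      ang p₂ p₁ p₃ = Real.pi / 2 → dd p₁ p₂ < ε → dd p₁ p₃ < ε →
      ¬(dd (T p₁) (T p₂) = dd p₁ p₂ ∧ dd (T p₁) (T p₃) = dd p₁ p₃ ∧
        dd (T p₂) (T p₃) = dd p₂ p₃) :=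
  main
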